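import Mathlib
import Pool.Agent.Q10.NotDoubles

/-!
# Leavitt path algebras of Kronecker squares do not determine those of the quivers
-/

open Finset

noncomputable section

namespace Pool.Agent.Results.MP_40e4cd_al.KroneckerSquare

/-- A finite quiver. -/
structure FinQuiver where
  V : Type
  E : Type
  [fV : Fintype V]
  [dV : DecidableEq V]
  [fE : Fintype E]
  [dE : DecidableEq E]
  s : E → V
  r : E → V

attribute [instance] FinQuiver.fV FinQuiver.dV FinQuiver.fE FinQuiver.dE

/-- The Kronecker square of a quiver. -/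
def FinQuiver.square (Q : FinQuiver) : FinQuiver where
  V := Q.V × Q.V
  E := Q.E × Q.E
  s e := (Q.s e.1, Q.s e.2)
  r e := (Q.r e.1, Q.r e.2)

/-- The generators of the Leavitt path algebra: the vertices `v x`, the arrows `e f` and the
elements `g f` (that is, `f^*`). -/
inductive Gen (Q : FinQuiver) : Type
  | v (x : Q.V) : Gen Q
  | e (f : Q.E) : Gen Q
  | g (f : Q.E) : Gen Q

open Gen FreeAlgebra in
/-- The defining relations of the Leavitt path algebra; the last one says that the identity is the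
sum of the vertices. -/
inductive Rel (K : Type) [Field K] (Q : FinQuiver) :
    FreeAlgebra K (Gen Q) → FreeAlgebra K (Gen Q) → Prop
  | vv (x y : Q.V) : Rel K Q (ι K (v x) * ι K (v y)) (if x = y then ι K (v x) else 0)
  | se (f : Q.E) : Rel K Q (ι K (v (Q.s f)) * ι K (e f)) (ι K (e f))
  | er (f : Q.E) : Rel K Q (ι K (e f) * ι K (v (Q.r f))) (ι K (e f))
  | rg (f : Q.E) : Rel K Q (ι K (v (Q.r f)) * ι K (g f)) (ι K (g f))
  | gs (f : Q.E) : Rel K Q (ι K (g f) * ι K (v (Q.s f))) (ι K (g f))
  | ge (f h : Q.E) : Rel K Q (ι K (g f) * ι K (e h)) (if f = h then ι K (v (Q.r f)) else 0)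
  | ck (x : Q.V) (hx : ∃ f, Q.s f = x) :
      Rel K Q (ι K (v x)) (∑ f with Q.s f = x, ι K (e f) * ι K (g f))
  | one : Rel K Q 1 (∑ x, ι K (v x))

/-- The Leavitt path algebra `L_K(Q)`. -/
abbrev LPA (K : Type) [Field K] (Q : FinQuiver) : Type := RingQuot (Rel K Q)

section General

variable {K : Type} [Field K] {Q : FinQuiver}

/-- The quotient map. -/
def mk (K : Type) [Field K] (Q : FinQuiver) : FreeAlgebra K (Gen Q) →ₐ[K] LPA K Q :=
  RingQuot.mkAlgHom K (Rel K Q)

theorem mk_rel {x y : FreeAlgebra K (Gen Q)} (h : Rel K Q x y) : mk K Q x = mk K Q y :=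
  RingQuot.mkAlgHom_rel K h

/-- The images of the generators. -/
def gv (K : Type) [Field K] {Q : FinQuiver} (x : Q.V) : LPA K Q := mk K Q (FreeAlgebra.ι K (.v x))
def ge (K : Type) [Field K] {Q : FinQuiver} (f : Q.E) : LPA K Q := mk K Q (FreeAlgebra.ι K (.e f))
def gg (K : Type) [Field K] {Q : FinQuiver} (f : Q.E) : LPA K Q := mk K Q (FreeAlgebra.ι K (.g f))

theorem gg_ge (f h : Q.E) : gg K f * ge K h = if f = h then gv K (Q.r f) else 0 := by
  have := mk_rel (Rel.ge (K := K) f h)
  rw [map_mul] at this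
  refine this.trans ?_
  split_ifs
  · rfl
  · exact map_zero _

theorem gv_eq (x : Q.V) (hx : ∃ f, Q.s f = x) :
    gv K x = ∑ f with Q.s f = x, ge K f * gg K f := by
  have := mk_rel (Rel.ck (K := K) x hx)
  rw [map_sum] at this
  refine this.trans (Finset.sum_congr rfl fun f _ => map_mul _ _ _)

theorem one_eq : (1 : LPA K Q) = ∑ x, gv K x := by
  have := mk_rel (Rel.one (K := K) (Q := Q))
  rw [map_sum, map_one] at this
  exact this

theorem hom_ext {B : Type} [Ring B] [Algebra K B] (φ ψ : LPA K Q →ₐ[K] B)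
    (hv : ∀ x, φ (gv K x) = ψ (gv K x)) (he : ∀ f, φ (ge K f) = ψ (ge K f))
    (hg : ∀ f, φ (gg K f) = ψ (gg K f)) : φ = ψ := by
  refine RingQuot.ringQuot_ext' K (s := Rel K Q) φ ψ ?_
  apply FreeAlgebra.hom_ext
  funext t
  cases t with
  | v x => exact hv x
  | e f => exact he f
  | g f => exact hg f

end General

open Q10.Fam

section Star

variable {K : Type} [Field K] {Q : FinQuiver} (w : Q.V) (hr : ∀ e, Q.r e = w)
  (hs : ∀ x, ∃ e, Q.s e = x)

/-- Splitting the arrows into the loops at `w` and the others. -/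
def spl : {e // Q.s e = w} ⊕ {e // ¬ Q.s e = w} ≃ Q.E := Equiv.sumCompl fun e => Q.s e = w

theorem spl_inl (a : {e // Q.s e = w}) : spl w (Sum.inl a) = a := rfl

theorem sum_filter_eq {M : Type} [AddCommMonoid M] (f : Q.E → M) :
    ∑ e with Q.s e = w, f e = ∑ a : {e // Q.s e = w}, f a := by
  rw [Finset.sum_subtype (p := fun e => Q.s e = w)]
  intro e
  simp

include hr hs in
theorem star_rep : Rep K {e // Q.s e = w} {e // ¬ Q.s e = w} (LPA K Q) := by
  have hw : gv K w = ∑ a : {e // Q.s e = w}, ge K (a : Q.E) * gg K (a : Q.E) := by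
    rw [gv_eq w (hs w), sum_filter_eq]
  let F : Fam {e // Q.s e = w} {e // ¬ Q.s e = w} (LPA K Q) :=
    { X := fun a => ge K (spl w a)
      Y := fun a => gg K (spl w a)
      YX := fun a b => by
        rw [gg_ge, hr]
        simp only [spl_inl]
        rw [← hw]
        by_cases h : a = b
        · rw [if_pos (by rw [h]), if_pos h]
        · rw [if_neg (fun h' => h ((spl w).injective h')), if_neg h]
      XY := by
        rw [Equiv.sum_comp (spl w) (fun e => ge K e * gg K e), one_eq]
        rw [Finset.sum_congr rfl fun x _ => gv_eq (K := K) x (hs x)]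
        rw [← Finset.sum_fiberwise Finset.univ Q.s] }
  refine ⟨F, ?_, ?_⟩
  · intro B _ _ G
    obtain ⟨GX, hGX⟩ : ∃ GX : Q.E → B, GX = fun e => G.X ((spl w).symm e) := ⟨_, rfl⟩
    obtain ⟨GY, hGY⟩ : ∃ GY : Q.E → B, GY = fun e => G.Y ((spl w).symm e) := ⟨_, rfl⟩
    have hYX : ∀ e f, GY e * GX f = if e = f then G.w else 0 := by
      intro e f
      rw [hGX, hGY]
      simp only
      rw [G.YX']
      by_cases h : e = f
      · rw [if_pos (by rw [h]), if_pos h]
      · rw [if_neg (fun h' => h ((spl w).symm.injective h')), if_neg h]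
    have hXw : ∀ e, GX e * G.w = GX e := fun e => by rw [hGX]; exact G.X_w _
    have hwY : ∀ e, G.w * GY e = GY e := fun e => by rw [hGY]; exact G.w_Y _
    have hXY : ∑ e, GX e * GY e = 1 := by
      rw [← G.XY, hGX, hGY]
      exact Equiv.sum_comp (spl w).symm (fun a => G.X a * G.Y a)
    have hGw : G.w = ∑ e with Q.s e = w, GX e * GY e := by
      rw [sum_filter_eq w (fun e => GX e * GY e)]
      change ∑ d, G.X (Sum.inl d) * G.Y (Sum.inl d) = _
      refine Finset.sum_congr rfl fun a _ => ?_
      have : (spl w).symm (a : Q.E) = Sum.inl a := by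
        rw [Equiv.symm_apply_eq]; rfl
      rw [hGX, hGY]
      simp only
      rw [this]
    obtain ⟨Gv, hGv⟩ : ∃ Gv : Q.V → B, Gv = fun x => ∑ e with Q.s e = x, GX e * GY e :=
      ⟨_, rfl⟩
    have hGvw : Gv w = G.w := by rw [hGv, hGw]
    have hGvX : ∀ x e, Gv x * GX e = if Q.s e = x then GX e else 0 := by
      intro x e
      rw [hGv]
      simp only
      rw [Finset.sum_mul]
      by_cases h : Q.s e = x
      · rw [if_pos h, Finset.sum_eq_single e]
        · rw [mul_assoc, hYX, if_pos rfl, hXw]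
        · intro f _ hf
          rw [mul_assoc, hYX, if_neg hf, mul_zero]
        · intro h'
          exact absurd (Finset.mem_filter.mpr ⟨Finset.mem_univ e, h⟩ :
            e ∈ Finset.filter (fun e => Q.s e = x) Finset.univ) h'
      · rw [if_neg h]
        apply Finset.sum_eq_zero
        intro f hf
        rw [Finset.mem_filter] at hf
        rw [mul_assoc, hYX, if_neg, mul_zero]
        rintro rfl
        exact h hf.2
    have hGYv : ∀ x e, GY e * Gv x = if Q.s e = x then GY e else 0 := by
      intro x e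
      rw [hGv]
      simp only
      rw [Finset.mul_sum]
      by_cases h : Q.s e = x
      · rw [if_pos h, Finset.sum_eq_single e]
        · rw [← mul_assoc, hYX, if_pos rfl, hwY]
        · intro f _ hf
          rw [← mul_assoc, hYX, if_neg (Ne.symm hf), zero_mul]
        · intro h'
          exact absurd (Finset.mem_filter.mpr ⟨Finset.mem_univ e, h⟩ :
            e ∈ Finset.filter (fun e => Q.s e = x) Finset.univ) h'
      · rw [if_neg h]
        apply Finset.sum_eq_zero
        intro f hf
        rw [Finset.mem_filter] at hf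
        rw [← mul_assoc, hYX, if_neg, zero_mul]
        rintro rfl
        exact h hf.2
    let toB : FreeAlgebra K (Gen Q) →ₐ[K] B := FreeAlgebra.lift K fun t => match t with
      | .v x => Gv x
      | .e f => GX f
      | .g f => GY f
    have tv : ∀ x, toB (FreeAlgebra.ι K (.v x)) = Gv x := fun x => FreeAlgebra.lift_ι_apply _ _
    have te : ∀ f, toB (FreeAlgebra.ι K (.e f)) = GX f := fun x => FreeAlgebra.lift_ι_apply _ _
    have tg : ∀ f, toB (FreeAlgebra.ι K (.g f)) = GY f := fun x => FreeAlgebra.lift_ι_apply _ _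
    have hrel : ∀ ⦃x y : FreeAlgebra K (Gen Q)⦄, Rel K Q x y → toB x = toB y := by
      intro x y h
      cases h with
      | vv x y =>
        rw [map_mul, tv, tv]
        have h1 : Gv x * Gv y = if x = y then Gv x else 0 := by
          nth_rewrite 2 [hGv]
          simp only
          rw [Finset.mul_sum]
          have h2 : ∀ e, Gv x * (GX e * GY e) = if Q.s e = x then GX e * GY e else 0 := by
            intro e
            rw [← mul_assoc, hGvX]
            split_ifs
            · rfl
            · rw [zero_mul]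
          rw [Finset.sum_congr rfl fun e _ => h2 e, hGv]
          simp only
          by_cases hxy : x = y
          · rw [if_pos hxy]
            subst hxy
            refine Finset.sum_congr rfl fun e he => ?_
            rw [if_pos (Finset.mem_filter.mp he).2]
          · rw [if_neg hxy]
            apply Finset.sum_eq_zero
            intro e he
            rw [if_neg]
            intro h'
            exact hxy (h'.symm.trans (Finset.mem_filter.mp he).2)
        rw [h1]
        split_ifs
        · rw [tv]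
        · rw [map_zero]
      | se f => rw [map_mul, tv, te, hGvX, if_pos rfl]
      | er f => rw [map_mul, tv, te, hr, hGvw, hXw]
      | rg f => rw [map_mul, tv, tg, hr, hGvw, hwY]
      | gs f => rw [map_mul, tv, tg, hGYv, if_pos rfl]
      | ge f h =>
        rw [map_mul, te, tg, hYX]
        split_ifs
        · rw [tv, hr, hGvw]
        · rw [map_zero]
      | ck x hx =>
        rw [map_sum, tv, hGv]
        refine Finset.sum_congr rfl fun e _ => ?_
        rw [map_mul, te, tg]
      | one =>
        rw [map_one, map_sum, Finset.sum_congr rfl fun x _ => tv x, ← hXY, hGv]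
        rw [← Finset.sum_fiberwise Finset.univ Q.s]
    let φ : LPA K Q →ₐ[K] B := RingQuot.liftAlgHom K ⟨toB, hrel⟩
    have hφ : ∀ x, φ (mk K Q x) = toB x := fun x => RingQuot.liftAlgHom_mkAlgHom_apply K _ _ x
    refine ⟨φ, fun a => ?_, fun a => ?_⟩
    · change φ (mk K Q (FreeAlgebra.ι K (.e (spl w a)))) = _
      rw [hφ, te, hGX]
      simp only [Equiv.symm_apply_apply]
    · change φ (mk K Q (FreeAlgebra.ι K (.g (spl w a)))) = _
      rw [hφ, tg, hGY]
      simp only [Equiv.symm_apply_apply]
  · intro B _ _ φ ψ h1 h2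
    have he : ∀ f, φ (ge K f) = ψ (ge K f) := by
      intro f
      have := h1 ((spl w).symm f)
      change φ (ge K (spl w ((spl w).symm f))) = ψ (ge K (spl w ((spl w).symm f))) at this
      rwa [Equiv.apply_symm_apply] at this
    have hg : ∀ f, φ (gg K f) = ψ (gg K f) := by
      intro f
      have := h2 ((spl w).symm f)
      change φ (gg K (spl w ((spl w).symm f))) = ψ (gg K (spl w ((spl w).symm f))) at this
      rwa [Equiv.apply_symm_apply] at this
    refine hom_ext φ ψ ?_ he hg
    intro x
    rw [gv_eq x (hs x), map_sum, map_sum]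
    refine Finset.sum_congr rfl fun e _ => ?_
    rw [map_mul, map_mul, he, hg]

end Star

/-- The quiver with two vertices, `j` arrows from `0` to `1` and ten loops at `1`. -/
def Qj (j : ℕ) : FinQuiver where
  V := Fin 2
  E := Fin j ⊕ Fin 10
  s := Sum.elim (fun _ => 0) (fun _ => 1)
  r := fun _ => 1

theorem Qj_surj {j : ℕ} (hj : 0 < j) (x : (Qj j).V) : ∃ e, (Qj j).s e = x := by
  change Fin 2 at x
  fin_cases x
  · exact ⟨Sum.inl ⟨0, hj⟩, rfl⟩
  · exact ⟨Sum.inr 0, rfl⟩

theorem s_eq_one {j : ℕ} (e : (Qj j).E) : (Qj j).s e = (1 : Fin 2) ↔ ∃ d : Fin 10, e = Sum.inr d := by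
  constructor
  · intro h
    rcases e with a | a
    · exact absurd h (by decide : ¬ ((0 : Fin 2) = 1))
    · exact ⟨a, rfl⟩
  · rintro ⟨d, rfl⟩
    rfl

/-- Cardinalities for the quiver. -/
theorem card_loops (j : ℕ) : Fintype.card {e // (Qj j).s e = (1 : Fin 2)} = 10 := by
  have : Function.Bijective (fun d : Fin 10 =>
      (⟨Sum.inr d, rfl⟩ : {e // (Qj j).s e = (1 : Fin 2)})) := by
    constructor
    · intro a b h
      exact Sum.inr.inj (congrArg Subtype.val h)
    · rintro ⟨e, he⟩
      obtain ⟨d, rfl⟩ := (s_eq_one e).mp he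
      exact ⟨d, rfl⟩
  rw [← Fintype.card_of_bijective this, Fintype.card_fin]

theorem card_hairs (j : ℕ) : Fintype.card {e // ¬ (Qj j).s e = (1 : Fin 2)} = j := by
  rw [Fintype.card_subtype_compl, card_loops]
  change Fintype.card (Fin j ⊕ Fin 10) - 10 = j
  rw [Fintype.card_sum, Fintype.card_fin, Fintype.card_fin, Nat.add_sub_cancel]

/-- Cardinalities for the Kronecker square. -/
theorem card_loops_sq (j : ℕ) :
    Fintype.card {e // (Qj j).square.s e = ((1 : Fin 2), (1 : Fin 2))} = 100 := by
  have : Function.Bijective (fun d : Fin 10 × Fin 10 =>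
      (⟨(Sum.inr d.1, Sum.inr d.2), rfl⟩ :
        {e // (Qj j).square.s e = ((1 : Fin 2), (1 : Fin 2))})) := by
    constructor
    · rintro ⟨a, b⟩ ⟨a', b'⟩ h
      have h' := congrArg Subtype.val h
      obtain ⟨h1, h2⟩ := Prod.mk.inj h'
      exact Prod.ext (Sum.inr.inj h1) (Sum.inr.inj h2)
    · rintro ⟨⟨e, f⟩, he⟩
      obtain ⟨h1, h2⟩ := Prod.mk.inj he
      obtain ⟨d, rfl⟩ := (s_eq_one e).mp h1
      obtain ⟨d', rfl⟩ := (s_eq_one f).mp h2
      exact ⟨(d, d'), rfl⟩
  rw [← Fintype.card_of_bijective this, Fintype.card_prod, Fintype.card_fin]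

theorem card_hairs_sq (j : ℕ) :
    Fintype.card {e // ¬ (Qj j).square.s e = ((1 : Fin 2), (1 : Fin 2))} =
      (j + 10) * (j + 10) - 100 := by
  rw [Fintype.card_subtype_compl, card_loops_sq]
  change Fintype.card ((Fin j ⊕ Fin 10) × (Fin j ⊕ Fin 10)) - 100 = _
  rw [Fintype.card_prod, Fintype.card_sum, Fintype.card_fin, Fintype.card_fin]

theorem rep_Qj (K : Type) [Field K] {j : ℕ} (hj : 0 < j) :
    Rep K (Fin 10) (Fin j) (LPA K (Qj j)) := by
  have h := star_rep (K := K) (Q := Qj j) (1 : Fin 2) (fun _ => rfl) (Qj_surj hj)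
  exact h.reindex (Fintype.equivFinOfCardEq (card_loops j)).symm
    (Fintype.equivFinOfCardEq (card_hairs j)).symm

theorem rep_sq (K : Type) [Field K] {j m : ℕ} (hj : 0 < j) (hm : (j + 10) * (j + 10) - 100 = m) :
    Rep K (Fin 100) (Fin m) (LPA K (Qj j).square) := by
  have h := star_rep (K := K) (Q := (Qj j).square) ((1 : Fin 2), (1 : Fin 2)) (fun _ => rfl) (by
    rintro ⟨x, y⟩
    obtain ⟨e, he⟩ := Qj_surj hj x
    obtain ⟨f, hf⟩ := Qj_surj hj y
    exact ⟨(e, f), Prod.ext he hf⟩)
  exact h.reindex (Fintype.equivFinOfCardEq (card_loops_sq j)).symm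
    (Fintype.equivFinOfCardEq ((card_hairs_sq j).trans hm)).symm

theorem doubles_of_equiv {A B : Type} [Ring A] [Ring B] (φ : A →+* B) (h : Doubles A) :
    Doubles B := by
  obtain ⟨a, b, h1, h2⟩ := h
  refine ⟨fun i => φ (a i), fun i => φ (b i), fun i j => ?_, ?_⟩
  · rw [← map_mul, h1]
    split_ifs
    · exact map_one φ
    · exact map_zero φ
  · simp only [← map_mul]
    rw [← map_sum, h2, map_one]

/-- There are a field `K` and finite quivers `Q`, `Q'` such that the Leavitt path algebras of their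
Kronecker squares are isomorphic, but the Leavitt path algebras of `Q` and `Q'` are not. -/
theorem result : ∃ (K : Type) (_ : Field K) (Q Q' : FinQuiver),
    Nonempty (LPA K Q.square ≃ₐ[K] LPA K Q'.square) ∧
      ¬ Nonempty (LPA K Q ≃ₐ[K] LPA K Q') := by
  refine ⟨ZMod 3, inferInstance, Qj 2, Qj 35, ?_, ?_⟩
  · have h1 : Rep (ZMod 3) (Fin (99 + 1)) (Fin (43 + 1)) (LPA (ZMod 3) (Qj 2).square) :=
      rep_sq (ZMod 3) (by norm_num) (by norm_num)
    have h2 : Rep (ZMod 3) (Fin 100) (Fin 1925) (LPA (ZMod 3) (Qj 35).square) :=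
      rep_sq (ZMod 3) (by norm_num) (by norm_num)
    exact (h1.steps 19).equiv h2
  · rintro ⟨ψ⟩
    -- the algebra of `Qj 35` doubles
    have hd : Doubles (LPA (ZMod 3) (Qj 35)) := by
      obtain ⟨F, -, -⟩ := rep_Qj (ZMod 3) (j := 35) (by norm_num)
      obtain ⟨G, hG⟩ := Fam.steps (N := 9) (m := 34) F 5
      refine doubles_of F G hG (Fintype.equivOfCardEq ?_)
      simp
    have hd2 : Doubles (LPA (ZMod 3) (Qj 2)) := doubles_of_equiv ψ.symm.toRingEquiv.toRingHom hd
    obtain ⟨F, hF, -⟩ := rep_Qj (ZMod 3) (j := 2) (by norm_num)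
    obtain ⟨φ, -, -⟩ := hF Q10.NotDoubles.Q Q10.NotDoubles.FQ
    exact Q10.NotDoubles.Q_not_doubles (doubles_of_equiv φ.toRingHom hd2)

end Pool.Agent.Results.MP_40e4cd_al.KroneckerSquare
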